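import Pool.Agent.H60.BrF

set_option autoImplicit false

namespace Pool.Agent.Results.MP_790f3b_al.Counter

open Pool.Agent.H60.Br

universe u

/-- A group of nilpotency class two that is not the multiplicative group of any left brace. -/
theorem result : ∃ (G : Type) (_ : Group G), (∃ a b : G, a * b ≠ b * a) ∧
    commutator G ≤ Subgroup.center G ∧
    ∀ (A : Type u) [AddCommGroup A] [Group A],
      (∀ a b c : A, a * (b + c) = a * b - a + a * c) → IsEmpty (A ≃* G) := by
  refine ⟨GG, inferInstance, ?_, ?_, fun A _ _ h => ⟨fun e => final h (modOf e)⟩⟩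
  · let m := modOf (MulEquiv.refl GG)
    obtain ⟨a, q0, -⟩ := m.sur _ _ (memInt ![1, 0, 0] 0 rfl rfl rfl)
    obtain ⟨b, q1, -⟩ := m.sur _ _ (memInt ![0, 1, 0] 0 rfl rfl rfl)
    refine ⟨a, b, fun e => ?_⟩
    have e1 := congrFun (congrArg m.c e) 2
    rw [m.c_mul, m.c_mul, Pi.add_apply, Pi.add_apply, Pi.add_apply, Pi.add_apply] at e1
    simp [cr, q0, q1] at e1
    linarith
  · let m := modOf (MulEquiv.refl GG)
    rw [commutator_def, Subgroup.commutator_le]
    intro a _ b _
    rw [Subgroup.mem_center_iff]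
    intro g
    refine (m.cen ?_ g).symm
    rw [commutatorElement_def, m.q_mul, m.q_mul, m.q_mul, m.q_inv, m.q_inv]
    abel

end Pool.Agent.Results.MP_790f3b_al.Counter
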